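import Pool.Agent.helper80.SV.Spec

/-! # Project sv, AHL: the differential Horace lemma (helper19) -/

set_option autoImplicit false
set_option linter.unusedSectionVars false

namespace Pool.Agent.SV

open MvPolynomial Module

/-! ## One variable -/

/-- remove the terms of degree 0 and 1 and divide by the square of the variable -/
noncomputable def AHL_D : Polynomial ℂ →ₗ[ℂ] Polynomial ℂ where
  toFun F := Polynomial.divX (Polynomial.divX F)
  map_add' F G := by
    ext n
    simp [Polynomial.coeff_divX]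
  map_smul' a F := by
    ext n
    simp [Polynomial.coeff_divX]

theorem AHL_D_eval (F : Polynomial ℂ) (t : ℂ) :
    F.eval t = F.coeff 0 + t * F.coeff 1 + t ^ 2 * (AHL_D F).eval t := by
  have h1 := congrArg (Polynomial.eval t) (Polynomial.divX_mul_X_add F)
  have h2 := congrArg (Polynomial.eval t) (Polynomial.divX_mul_X_add F.divX)
  simp only [Polynomial.eval_add, Polynomial.eval_mul, Polynomial.eval_X, Polynomial.eval_C,
    Polynomial.coeff_divX] at h1 h2
  have h3 : (AHL_D F).eval t = F.divX.divX.eval t := rfl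
  rw [h3, ← h1, ← h2]
  ring

theorem AHL_polyFun {δ : ℕ} (lam : (Fin δ → ℂ) →ₗ[ℂ] ℂ) (g : Fin δ → Polynomial ℂ) :
    PolyFun (fun t => lam (fun i => (g i).eval t)) := by
  have h : (fun t => lam (fun i => (g i).eval t)) =
      fun t => ∑ i, (g i).eval t * lam (Pi.single i 1) := by
    funext t
    rw [LinearMap.pi_apply_eq_sum_univ lam (fun i => (g i).eval t)]
    refine Finset.sum_congr rfl fun i _ => ?_
    rw [smul_eq_mul]
    congr 2
    funext j
    simp [Pi.single_apply, eq_comm]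
  rw [h]
  exact PolyFun.sum _ fun i _ => PolyFun.mul ⟨g i, fun t => rfl⟩ (PolyFun.const _)

/-! ## Restriction to lines -/

section R

variable {ι : Type} [Fintype ι] [DecidableEq ι]

/-- the restriction to the line through `P` in the direction `z` -/
noncomputable def AHL_R (z : ι) (P : ι → ℂ) : MvPolynomial ι ℂ →ₐ[ℂ] Polynomial ℂ :=
  aeval (fun v => if v = z then Polynomial.X else Polynomial.C (P v))

theorem AHL_R_eval (z : ι) (P : ι → ℂ) (f : MvPolynomial ι ℂ) (t : ℂ) :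
    (AHL_R z P f).eval t = eval (fun v => if v = z then t else P v) f := by
  induction f using MvPolynomial.induction_on with
  | C a => simp [AHL_R]
  | add p q hp hq => rw [map_add, Polynomial.eval_add, hp, hq, map_add]
  | mul_X p n hp =>
    rw [map_mul, Polynomial.eval_mul, hp, map_mul]
    congr 1
    unfold AHL_R
    rw [aeval_X, eval_X]
    split_ifs <;> simp

theorem AHL_R_deriv (z : ι) (P : ι → ℂ) (f : MvPolynomial ι ℂ) :
    Polynomial.derivative (AHL_R z P f) = AHL_R z P (pderiv z f) := by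
  induction f using MvPolynomial.induction_on with
  | C a => simp [AHL_R]
  | add p q hp hq => rw [map_add, map_add, hp, hq, map_add, map_add]
  | mul_X p n hp =>
    rw [map_mul, Polynomial.derivative_mul, hp, Derivation.leibniz, map_add, smul_eq_mul,
      smul_eq_mul, map_mul, map_mul, pderiv_X]
    by_cases h : n = z
    · subst h
      simp [AHL_R]
      ring
    · have h1 : (Pi.single z 1 : ι → MvPolynomial ι ℂ) n = 0 := by simp [h]
      rw [h1, map_zero, mul_zero, zero_add]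
      simp [AHL_R, h]
      ring

theorem AHL_upd (z : ι) (P : ι → ℂ) (hP : P z = 0) : (fun v => if v = z then 0 else P v) = P := by
  funext v
  split_ifs with h
  · rw [h, hP]
  · rfl

theorem AHL_R_coeff0 (z : ι) (P : ι → ℂ) (hP : P z = 0) (f : MvPolynomial ι ℂ) :
    (AHL_R z P f).coeff 0 = eval P f := by
  rw [Polynomial.coeff_zero_eq_eval_zero, AHL_R_eval, AHL_upd z P hP]

theorem AHL_R_coeff1 (z : ι) (P : ι → ℂ) (hP : P z = 0) (f : MvPolynomial ι ℂ) :
    (AHL_R z P f).coeff 1 = eval P (pderiv z f) := by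
  rw [← AHL_R_coeff0 z P hP, ← AHL_R_deriv, Polynomial.coeff_derivative]
  simp

/-- the second order remainder of `f(P) - f(P + t e_z) + t ∂_z f(P + t e_z)` -/
noncomputable def AHL_G (z : ι) (P : ι → ℂ) : MvPolynomial ι ℂ →ₗ[ℂ] Polynomial ℂ :=
  AHL_D ∘ₗ ((LinearMap.mulLeft ℂ (Polynomial.X : Polynomial ℂ)) ∘ₗ (AHL_R z P).toLinearMap ∘ₗ
    (pderiv z).toLinearMap - (AHL_R z P).toLinearMap)

theorem AHL_G_eval (z : ι) (P : ι → ℂ) (hP : P z = 0) (f : MvPolynomial ι ℂ) (t : ℂ) :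
    t * eval (fun v => if v = z then t else P v) (pderiv z f) -
      eval (fun v => if v = z then t else P v) f = - eval P f + t ^ 2 * (AHL_G z P f).eval t := by
  have h := AHL_D_eval (Polynomial.X * AHL_R z P (pderiv z f) - AHL_R z P f) t
  have h0 : AHL_G z P f = AHL_D (Polynomial.X * AHL_R z P (pderiv z f) - AHL_R z P f) := rfl
  rw [h0]
  rw [Polynomial.coeff_sub, Polynomial.coeff_sub, Polynomial.coeff_X_mul_zero,
    Polynomial.coeff_X_mul, AHL_R_coeff0 z P hP, AHL_R_coeff1 z P hP, AHL_R_coeff0 z P hP,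
    Polynomial.eval_sub, Polynomial.eval_mul, Polynomial.eval_X, AHL_R_eval, AHL_R_eval] at h
  rw [h]
  ring

/-- the second order remainder of `f(P + t e_z)` -/
noncomputable def AHL_K (z : ι) (P : ι → ℂ) : MvPolynomial ι ℂ →ₗ[ℂ] Polynomial ℂ :=
  AHL_D ∘ₗ (AHL_R z P).toLinearMap

theorem AHL_K_eval (z : ι) (P : ι → ℂ) (hP : P z = 0) (f : MvPolynomial ι ℂ) (t : ℂ) :
    eval (fun v => if v = z then t else P v) f =
      eval P f + t * eval P (pderiv z f) + t ^ 2 * (AHL_K z P f).eval t := by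
  have h := AHL_D_eval (AHL_R z P f) t
  rw [AHL_R_eval, AHL_R_coeff0 z P hP, AHL_R_coeff1 z P hP] at h
  exact h

theorem AHL_comm (z a : ι) (f : MvPolynomial ι ℂ) :
    pderiv z (pderiv a f) = pderiv a (pderiv z f) := by
  induction f using MvPolynomial.induction_on with
  | C a => simp
  | add p q hp hq => rw [map_add, map_add, hp, hq, map_add, map_add]
  | mul_X p n hp =>
    have h0 : ∀ i j : ι, pderiv i (pderiv j (X n : MvPolynomial ι ℂ)) = 0 := by
      intro i j
      rw [pderiv_X]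
      by_cases h : n = j
      · subst h
        rw [Pi.single_eq_same]
        exact Derivation.map_one_eq_zero _
      · have h1 : (Pi.single j 1 : ι → MvPolynomial ι ℂ) n = 0 := by simp [h]
        rw [h1, map_zero]
    simp only [Derivation.leibniz, smul_eq_mul, map_add, h0, hp, mul_zero]
    ring

/-- the substitution `X z ↦ 0` -/
noncomputable def AHL_Z (z : ι) : MvPolynomial ι ℂ →ₐ[ℂ] MvPolynomial ι ℂ :=
  aeval (fun v => if v = z then 0 else X v)

theorem AHL_Z_eval (z : ι) (f : MvPolynomial ι ℂ) (x : ι → ℂ) :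
    eval x (AHL_Z z f) = eval (cut (Finset.univ.erase z) x) f := by
  induction f using MvPolynomial.induction_on with
  | C a => simp [AHL_Z]
  | add p q hp hq => rw [map_add, map_add, hp, hq, map_add]
  | mul_X p n hp =>
    rw [map_mul, map_mul, hp, map_mul]
    congr 1
    unfold AHL_Z
    rw [aeval_X, eval_X]
    unfold cut
    by_cases h : n = z <;> simp [h]

theorem AHL_cut_cut (A : Finset ι) (x : ι → ℂ) : cut A (cut A x) = cut A x := by
  funext i
  unfold cut
  split_ifs <;> rfl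

theorem AHL_cut_z (z : ι) (x : ι → ℂ) : cut (Finset.univ.erase z) x z = 0 := by
  simp [cut]

end R

/-! ## The lemma -/

section main

variable {ι κ : Type} [Fintype ι] [DecidableEq ι] [Fintype κ] [DecidableEq κ]

theorem AHL_Z_mem (hHOM : HOM_stmt) (hCUT : CUT_stmt) (c : ι → κ) (z : ι) (d : κ → ℕ)
    (f : MvPolynomial ι ℂ) (hf : f ∈ Sec c Finset.univ d) :
    AHL_Z z f ∈ Sec c (Finset.univ.erase z) d ∧
    ∀ x, gradL (Finset.univ.erase z) (cut (Finset.univ.erase z) x) (AHL_Z z f) =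
      gradL (Finset.univ.erase z) (cut (Finset.univ.erase z) x) f := by
  obtain ⟨-, h⟩ := hCUT c (Finset.univ.erase z) Finset.univ d (Finset.subset_univ _)
  obtain ⟨g, hg, h1, h2⟩ := h f hf
  obtain ⟨-, -, -, -, h3⟩ := hHOM c (Finset.univ.erase z) d g hg
  have h4 : AHL_Z z f = g := by
    apply MvPolynomial.funext
    intro x
    rw [AHL_Z_eval, ← h1, h3]
  rw [h4]
  exact ⟨hg, h2⟩

/-- the substitution `X z ↦ 0` on the sections -/
noncomputable def AHL_Zr (hHOM : HOM_stmt) (hCUT : CUT_stmt) (c : ι → κ) (z : ι) (d : κ → ℕ) :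
    ↥(Sec c Finset.univ d) →ₗ[ℂ] ↥(Sec c (Finset.univ.erase z) d) :=
  LinearMap.restrict (AHL_Z z).toLinearMap (fun f hf => (AHL_Z_mem hHOM hCUT c z d f hf).1)

/-- the conditions of the trace -/
noncomputable def AHL_Th (c : ι → κ) (z : ι) (d : κ → ℕ) {u δ : ℕ} (q : Fin u → ι → ℂ)
    (p : Fin δ → ι → ℂ) :
    ↥(Sec c (Finset.univ.erase z) d) →ₗ[ℂ] (Fin u → ι → ℂ) × (Fin δ → ℂ) :=
  LinearMap.prod
    (LinearMap.pi fun j => gradL (Finset.univ.erase z) (cut (Finset.univ.erase z) (q j)) ∘ₗ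
      (Sec c (Finset.univ.erase z) d).subtype)
    (LinearMap.pi fun i => evL (cut (Finset.univ.erase z) (p i)) ∘ₗ
      (Sec c (Finset.univ.erase z) d).subtype)

theorem AHL_Th_fst (c : ι → κ) (z : ι) (d : κ → ℕ) {u δ : ℕ} (q : Fin u → ι → ℂ)
    (p : Fin δ → ι → ℂ) (f : ↥(Sec c (Finset.univ.erase z) d)) (j : Fin u) :
    (AHL_Th c z d q p f).1 j = gradL (Finset.univ.erase z) (cut (Finset.univ.erase z) (q j)) f := rfl

theorem AHL_Th_snd (c : ι → κ) (z : ι) (d : κ → ℕ) {u δ : ℕ} (q : Fin u → ι → ℂ)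
    (p : Fin δ → ι → ℂ) (f : ↥(Sec c (Finset.univ.erase z) d)) (i : Fin δ) :
    (AHL_Th c z d q p f).2 i = eval (cut (Finset.univ.erase z) (p i)) (f : MvPolynomial ι ℂ) := by
  show evL (cut (Finset.univ.erase z) (p i)) (f : MvPolynomial ι ℂ) = _
  rw [evL_apply]

/-- the remainders at the points of the hyperplane -/
noncomputable def AHL_Gt (z : ι) {δ : ℕ} (p : Fin δ → ι → ℂ) (t : ℂ) :
    MvPolynomial ι ℂ →ₗ[ℂ] (Fin δ → ℂ) :=
  LinearMap.pi fun i => Polynomial.leval t ∘ₗ AHL_G z (cut (Finset.univ.erase z) (p i))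

/-- derivative in the direction `a` at `P` -/
noncomputable def AHL_pd (a : ι) (P : ι → ℂ) : MvPolynomial ι ℂ →ₗ[ℂ] ℂ :=
  evL P ∘ₗ (pderiv a).toLinearMap

theorem AHL_pd_apply (a : ι) (P : ι → ℂ) (f : MvPolynomial ι ℂ) :
    AHL_pd a P f = eval P (pderiv a f) := by
  show evL P (pderiv a f) = _
  rw [evL_apply]

/-- the family of conditions -/
noncomputable def AHL_B (hHOM : HOM_stmt) (hCUT : CUT_stmt) (c : ι → κ) (z : ι) (d : κ → ℕ)
    {u δ r : ℕ} (q : Fin u → ι → ℂ) (p : Fin δ → ι → ℂ) (s : Fin r → ι → ℂ)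
    (Psi : (Fin δ → ℂ) →ₗ[ℂ] ↥(Sec c (Finset.univ.erase z) d)) (t : ℂ) :
    ↥(Sec c Finset.univ d) →ₗ[ℂ]
      ((Fin (finrank ℂ ↥(Sec c (Finset.univ.erase z) d)) ⊕ (Fin δ × ι) ⊕ Fin u ⊕ (Fin r × ι)) → ℂ) :=
  LinearMap.pi fun J => match J with
    | Sum.inl m => (finBasis ℂ ↥(Sec c (Finset.univ.erase z) d)).coord m ∘ₗ
        (AHL_Zr hHOM hCUT c z d - t ^ 2 • (Psi ∘ₗ AHL_Gt z p t ∘ₗ (Sec c Finset.univ d).subtype))
    | Sum.inr (Sum.inl (i, a)) => if a = z then 0 else
        (AHL_pd a (cut (Finset.univ.erase z) (p i)) ∘ₗ (pderiv z).toLinearMap ∘ₗ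
          (Sec c Finset.univ d).subtype) + t • (AHL_pd a (cut (Finset.univ.erase z) (p i)) ∘ₗ
          (Sec c (Finset.univ.erase z) d).subtype ∘ₗ Psi ∘ₗ AHL_Gt z p t ∘ₗ
          (Sec c Finset.univ d).subtype + Polynomial.leval t ∘ₗ
            AHL_K z (cut (Finset.univ.erase z) (p i)) ∘ₗ (pderiv a).toLinearMap ∘ₗ
              (Sec c Finset.univ d).subtype)
    | Sum.inr (Sum.inr (Sum.inl j)) => AHL_pd z (cut (Finset.univ.erase z) (q j)) ∘ₗ
        (Sec c Finset.univ d).subtype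
    | Sum.inr (Sum.inr (Sum.inr (l, v))) => AHL_pd v (s l) ∘ₗ (Sec c Finset.univ d).subtype

theorem AHL_B_poly (hHOM : HOM_stmt) (hCUT : CUT_stmt) (c : ι → κ) (z : ι) (d : κ → ℕ)
    {u δ r : ℕ} (q : Fin u → ι → ℂ) (p : Fin δ → ι → ℂ) (s : Fin r → ι → ℂ)
    (Psi : (Fin δ → ℂ) →ₗ[ℂ] ↥(Sec c (Finset.univ.erase z) d)) (f : ↥(Sec c Finset.univ d))
    (J : Fin (finrank ℂ ↥(Sec c (Finset.univ.erase z) d)) ⊕ (Fin δ × ι) ⊕ Fin u ⊕ (Fin r × ι)) :
    PolyFun (fun t => AHL_B hHOM hCUT c z d q p s Psi t f J) := by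
  have hlin : ∀ lam : ↥(Sec c (Finset.univ.erase z) d) →ₗ[ℂ] ℂ,
      PolyFun (fun t => lam (Psi (AHL_Gt z p t (f : MvPolynomial ι ℂ)))) := fun lam =>
    AHL_polyFun (lam ∘ₗ Psi) (fun i => AHL_G z (cut (Finset.univ.erase z) (p i)) f)
  match J with
  | Sum.inl m =>
    have h : (fun t => AHL_B hHOM hCUT c z d q p s Psi t f (Sum.inl m)) = fun t =>
        (finBasis ℂ ↥(Sec c (Finset.univ.erase z) d)).coord m (AHL_Zr hHOM hCUT c z d f) -
          t ^ 2 * (finBasis ℂ ↥(Sec c (Finset.univ.erase z) d)).coord m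
            (Psi (AHL_Gt z p t (f : MvPolynomial ι ℂ))) := by
      funext t
      show (finBasis ℂ ↥(Sec c (Finset.univ.erase z) d)).coord m
        (AHL_Zr hHOM hCUT c z d f - t ^ 2 • (Psi (AHL_Gt z p t (f : MvPolynomial ι ℂ)))) = _
      rw [map_sub, map_smul, smul_eq_mul]
    rw [h]
    exact (PolyFun.const _).sub ((PolyFun.id.pow 2).mul (hlin _))
  | Sum.inr (Sum.inl (i, a)) =>
    by_cases ha : a = z
    · have h : (fun t => AHL_B hHOM hCUT c z d q p s Psi t f (Sum.inr (Sum.inl (i, a)))) =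
          fun t => 0 := by
        funext t
        simp only [AHL_B, LinearMap.pi_apply, ha, if_true, LinearMap.zero_apply]
      rw [h]
      exact PolyFun.const 0
    · have h : (fun t => AHL_B hHOM hCUT c z d q p s Psi t f (Sum.inr (Sum.inl (i, a)))) =
          fun t => AHL_pd a (cut (Finset.univ.erase z) (p i)) (pderiv z (f : MvPolynomial ι ℂ)) +
            t * (AHL_pd a (cut (Finset.univ.erase z) (p i))
              ((Psi (AHL_Gt z p t (f : MvPolynomial ι ℂ)) : ↥(Sec c (Finset.univ.erase z) d)) :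
                MvPolynomial ι ℂ) +
              (AHL_K z (cut (Finset.univ.erase z) (p i)) (pderiv a (f : MvPolynomial ι ℂ))).eval
                t) := by
        funext t
        simp only [AHL_B, LinearMap.pi_apply, ha, if_false]
        rfl
      rw [h]
      refine (PolyFun.const _).add (PolyFun.id.mul (PolyFun.add ?_ ⟨_, fun t => rfl⟩))
      exact hlin (AHL_pd a (cut (Finset.univ.erase z) (p i)) ∘ₗ
        (Sec c (Finset.univ.erase z) d).subtype)
  | Sum.inr (Sum.inr (Sum.inl j)) => exact PolyFun.const _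
  | Sum.inr (Sum.inr (Sum.inr (l, v))) => exact PolyFun.const _

theorem AHL_B_inl (hHOM : HOM_stmt) (hCUT : CUT_stmt) (c : ι → κ) (z : ι) (d : κ → ℕ)
    {u δ r : ℕ} (q : Fin u → ι → ℂ) (p : Fin δ → ι → ℂ) (s : Fin r → ι → ℂ)
    (Psi : (Fin δ → ℂ) →ₗ[ℂ] ↥(Sec c (Finset.univ.erase z) d)) (t : ℂ)
    (f : ↥(Sec c Finset.univ d)) (m : Fin (finrank ℂ ↥(Sec c (Finset.univ.erase z) d))) :
    AHL_B hHOM hCUT c z d q p s Psi t f (Sum.inl m) =
      (finBasis ℂ ↥(Sec c (Finset.univ.erase z) d)).coord m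
        (AHL_Zr hHOM hCUT c z d f - t ^ 2 • (Psi (AHL_Gt z p t (f : MvPolynomial ι ℂ)))) := rfl

theorem AHL_B_mid (hHOM : HOM_stmt) (hCUT : CUT_stmt) (c : ι → κ) (z : ι) (d : κ → ℕ)
    {u δ r : ℕ} (q : Fin u → ι → ℂ) (p : Fin δ → ι → ℂ) (s : Fin r → ι → ℂ)
    (Psi : (Fin δ → ℂ) →ₗ[ℂ] ↥(Sec c (Finset.univ.erase z) d)) (t : ℂ)
    (f : ↥(Sec c Finset.univ d)) (i : Fin δ) (a : ι) :
    AHL_B hHOM hCUT c z d q p s Psi t f (Sum.inr (Sum.inl (i, a))) =
      if a = z then 0 else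
        eval (cut (Finset.univ.erase z) (p i)) (pderiv a (pderiv z (f : MvPolynomial ι ℂ))) +
          t * (eval (cut (Finset.univ.erase z) (p i)) (pderiv a
            ((Psi (AHL_Gt z p t (f : MvPolynomial ι ℂ)) : ↥(Sec c (Finset.univ.erase z) d)) :
              MvPolynomial ι ℂ)) +
            (AHL_K z (cut (Finset.univ.erase z) (p i)) (pderiv a (f : MvPolynomial ι ℂ))).eval
              t) := by
  simp only [AHL_B, LinearMap.pi_apply]
  split_ifs with ha
  · rfl
  · rw [← AHL_pd_apply, ← AHL_pd_apply]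
    rfl

/-- the configuration of points -/
noncomputable def AHL_cfg (z : ι) {u δ r : ℕ} (q : Fin u → ι → ℂ) (p : Fin δ → ι → ℂ)
    (s : Fin r → ι → ℂ) (t : ℂ) : Fin (u + δ + r) → ι → ℂ :=
  Fin.append (Fin.append (fun j => cut (Finset.univ.erase z) (q j))
    (fun i v => if v = z then t else cut (Finset.univ.erase z) (p i) v)) s

theorem AHL_claim1 (hEUL : EUL_stmt) (hHOM : HOM_stmt) (hCUT : CUT_stmt) (c : ι → κ) (z : ι)
    (d : κ → ℕ) {u δ r : ℕ} (hk : ∃ k₁, k₁ ≠ c z ∧ 1 ≤ d k₁) (q : Fin u → ι → ℂ)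
    (p : Fin δ → ι → ℂ) (s : Fin r → ι → ℂ)
    (Thp : (Fin u → ι → ℂ) × (Fin δ → ℂ) →ₗ[ℂ] ↥(Sec c (Finset.univ.erase z) d))
    (hThp : Thp ∘ₗ AHL_Th c z d q p = LinearMap.id) (t : ℂ) (ht : t ≠ 0)
    (f : ↥(Sec c Finset.univ d))
    (hf : ∀ l i, eval (AHL_cfg z q p s t l) (pderiv i (f : MvPolynomial ι ℂ)) = 0) :
    AHL_B hHOM hCUT c z d q p s (Thp ∘ₗ LinearMap.inr ℂ _ _) t f = 0 := by
  obtain ⟨k₁, hk1, hk2⟩ := hk
  have hPz : ∀ i, cut (Finset.univ.erase z) (p i) z = 0 := fun i => AHL_cut_z z (p i)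
  have hq : ∀ j a, eval (cut (Finset.univ.erase z) (q j)) (pderiv a (f : MvPolynomial ι ℂ)) = 0 := by
    intro j a
    have h := hf (Fin.castAdd r (Fin.castAdd δ j)) a
    unfold AHL_cfg at h
    rwa [Fin.append_left, Fin.append_left] at h
  have hp : ∀ i a, eval (fun v => if v = z then t else cut (Finset.univ.erase z) (p i) v)
      (pderiv a (f : MvPolynomial ι ℂ)) = 0 := by
    intro i a
    have h := hf (Fin.castAdd r (Fin.natAdd u i)) a
    unfold AHL_cfg at h
    rwa [Fin.append_left, Fin.append_right] at h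
  have hs : ∀ l a, eval (s l) (pderiv a (f : MvPolynomial ι ℂ)) = 0 := by
    intro l a
    have h := hf (Fin.natAdd (u + δ) l) a
    unfold AHL_cfg at h
    rwa [Fin.append_right] at h
  -- the value
  have hpv : ∀ i, eval (fun v => if v = z then t else cut (Finset.univ.erase z) (p i) v)
      (f : MvPolynomial ι ℂ) = 0 := by
    intro i
    have h := hEUL c Finset.univ d f f.2 k₁
      (fun v => if v = z then t else cut (Finset.univ.erase z) (p i) v)
    have h2 : ∑ v ∈ Finset.univ.filter (fun v => c v = k₁),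
        (fun v => if v = z then t else cut (Finset.univ.erase z) (p i) v) v *
          eval (fun v => if v = z then t else cut (Finset.univ.erase z) (p i) v)
            (pderiv v (f : MvPolynomial ι ℂ)) = 0 :=
      Finset.sum_eq_zero fun v _ => by rw [hp i v, mul_zero]
    rw [h2] at h
    have h3 : (d k₁ : ℂ) ≠ 0 := by
      have : d k₁ ≠ 0 := by omega
      exact_mod_cast this
    exact (mul_eq_zero.1 h.symm).resolve_left h3
  have hG : ∀ i, eval (cut (Finset.univ.erase z) (p i)) (f : MvPolynomial ι ℂ) =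
      t ^ 2 * (AHL_G z (cut (Finset.univ.erase z) (p i)) (f : MvPolynomial ι ℂ)).eval t := by
    intro i
    have h := AHL_G_eval z _ (hPz i) (f : MvPolynomial ι ℂ) t
    rw [hp i z, hpv i] at h
    linear_combination h
  -- the restriction to the hyperplane
  have hZ : AHL_Zr hHOM hCUT c z d f =
      t ^ 2 • (Thp ∘ₗ LinearMap.inr ℂ _ _) (AHL_Gt z p t (f : MvPolynomial ι ℂ)) := by
    have h1 : AHL_Th c z d q p (AHL_Zr hHOM hCUT c z d f) =
        t ^ 2 • (LinearMap.inr ℂ (Fin u → ι → ℂ) (Fin δ → ℂ))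
          (AHL_Gt z p t (f : MvPolynomial ι ℂ)) := by
      refine Prod.ext ?_ ?_
      · funext j
        rw [AHL_Th_fst]
        have h2 := (AHL_Z_mem hHOM hCUT c z d f f.2).2 (q j)
        have h3 : ((AHL_Zr hHOM hCUT c z d f : ↥(Sec c (Finset.univ.erase z) d)) :
          MvPolynomial ι ℂ) = AHL_Z z (f : MvPolynomial ι ℂ) := rfl
        rw [h3, h2]
        have h4 : (t ^ 2 • (LinearMap.inr ℂ (Fin u → ι → ℂ) (Fin δ → ℂ))
          (AHL_Gt z p t (f : MvPolynomial ι ℂ))).1 j = 0 := by simp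
        rw [h4]
        funext a
        rw [gradL_apply]
        split_ifs
        · exact hq j a
        · rfl
      · funext i
        rw [AHL_Th_snd]
        have h3 : ((AHL_Zr hHOM hCUT c z d f : ↥(Sec c (Finset.univ.erase z) d)) :
          MvPolynomial ι ℂ) = AHL_Z z (f : MvPolynomial ι ℂ) := rfl
        rw [h3, AHL_Z_eval, AHL_cut_cut, hG i]
        rfl
    have h5 : AHL_Zr hHOM hCUT c z d f = Thp (AHL_Th c z d q p (AHL_Zr hHOM hCUT c z d f)) :=
      (LinearMap.congr_fun hThp _).symm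
    rw [h5, h1, map_smul]
    rfl
  funext J
  match J with
  | Sum.inl m =>
    rw [AHL_B_inl, hZ, sub_self, map_zero]
    rfl
  | Sum.inr (Sum.inl (i, a)) =>
    rw [AHL_B_mid]
    split_ifs with ha
    · rfl
    · have h1 := AHL_K_eval z _ (hPz i) (pderiv a (f : MvPolynomial ι ℂ)) t
      rw [hp i a] at h1
      have h2 : eval (cut (Finset.univ.erase z) (p i)) (pderiv a (f : MvPolynomial ι ℂ)) =
          t ^ 2 * eval (cut (Finset.univ.erase z) (p i)) (pderiv a
            (((Thp ∘ₗ LinearMap.inr ℂ _ _) (AHL_Gt z p t (f : MvPolynomial ι ℂ)) :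
              ↥(Sec c (Finset.univ.erase z) d)) : MvPolynomial ι ℂ)) := by
        have h3 := congrFun ((AHL_Z_mem hHOM hCUT c z d f f.2).2 (p i)) a
        rw [gradL_apply, gradL_apply, if_pos (by simp [ha]), if_pos (by simp [ha])] at h3
        rw [← h3]
        have h4 : AHL_Z z (f : MvPolynomial ι ℂ) =
            ((AHL_Zr hHOM hCUT c z d f : ↥(Sec c (Finset.univ.erase z) d)) :
              MvPolynomial ι ℂ) := rfl
        rw [h4, hZ, Submodule.coe_smul, Derivation.map_smul, smul_eval]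
      have h5 : pderiv z (pderiv a (f : MvPolynomial ι ℂ)) =
          pderiv a (pderiv z (f : MvPolynomial ι ℂ)) := AHL_comm _ _ _
      rw [h5, h2] at h1
      have h6 : t * (eval (cut (Finset.univ.erase z) (p i))
          (pderiv a (pderiv z (f : MvPolynomial ι ℂ))) +
          t * (eval (cut (Finset.univ.erase z) (p i)) (pderiv a
            (((Thp ∘ₗ LinearMap.inr ℂ _ _) (AHL_Gt z p t (f : MvPolynomial ι ℂ)) :
              ↥(Sec c (Finset.univ.erase z) d)) : MvPolynomial ι ℂ)) +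
            (AHL_K z (cut (Finset.univ.erase z) (p i)) (pderiv a (f : MvPolynomial ι ℂ))).eval
              t)) = 0 := by
        linear_combination -h1
      exact (mul_eq_zero.1 h6).resolve_left ht
  | Sum.inr (Sum.inr (Sum.inl j)) =>
    show AHL_pd z (cut (Finset.univ.erase z) (q j)) (f : MvPolynomial ι ℂ) = 0
    rw [AHL_pd_apply, hq j z]
  | Sum.inr (Sum.inr (Sum.inr (l, v))) =>
    show AHL_pd v (s l) (f : MvPolynomial ι ℂ) = 0
    rw [AHL_pd_apply, hs l v]

theorem AHL_claim2 (hHOM : HOM_stmt) (hCUT : CUT_stmt) (hRST : RST_stmt) (c : ι → κ) (z : ι)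
    (d : κ → ℕ) {u δ r : ℕ} (hk : ∃ k₁, k₁ ≠ c z ∧ 1 ≤ d k₁) (q : Fin u → ι → ℂ)
    (p : Fin δ → ι → ℂ) (s : Fin r → ι → ℂ) (hs : ∀ l, s l z ≠ 0)
    (Psi : (Fin δ → ℂ) →ₗ[ℂ] ↥(Sec c (Finset.univ.erase z) d))
    (f : ↥(Sec c Finset.univ d)) (hf : AHL_B hHOM hCUT c z d q p s Psi 0 f = 0) :
    ∃ g ∈ Resid c z (low d (c z)) q p s, (f : MvPolynomial ι ℂ) = X z * g := by
  obtain ⟨k₁, hk1, hk2⟩ := hk
  have hZ0 : AHL_Zr hHOM hCUT c z d f = 0 := by
    apply (finBasis ℂ ↥(Sec c (Finset.univ.erase z) d)).ext_elem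
    intro m
    have h := congrFun hf (Sum.inl m)
    rw [AHL_B_inl] at h
    simp only [ne_eq, OfNat.ofNat_ne_zero, not_false_eq_true, zero_pow, zero_smul, sub_zero,
      Module.Basis.coord_apply, Pi.zero_apply] at h
    rw [h, map_zero]
    rfl
  have hZ : AHL_Z z (f : MvPolynomial ι ℂ) = 0 := by
    have h : AHL_Z z (f : MvPolynomial ι ℂ) =
      ((AHL_Zr hHOM hCUT c z d f : ↥(Sec c (Finset.univ.erase z) d)) : MvPolynomial ι ℂ) := rfl
    rw [h, hZ0]
    rfl
  have hcut : ∀ w : ι → ℂ, eval (cut (Finset.univ.erase z) w) (f : MvPolynomial ι ℂ) = 0 := by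
    intro w
    rw [← AHL_Z_eval, hZ, map_zero]
  obtain ⟨hR1, -⟩ := hRST c z d
  obtain ⟨g, hg, hfg⟩ := hR1 f f.2 hcut
  refine ⟨g, ?_, hfg⟩
  obtain ⟨-, hR2⟩ := hRST c z (low d (c z))
  have hlow : 1 ≤ low d (c z) k₁ := by
    unfold low
    rw [Function.update_of_ne hk1]
    exact hk2
  -- first derivative
  have hd : ∀ a, pderiv a (X z * g) = X z * pderiv a g + (if a = z then g else 0) := by
    intro a
    rw [Derivation.leibniz, smul_eq_mul, smul_eq_mul, pderiv_X]
    by_cases h : a = z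
    · subst h
      rw [Pi.single_eq_same, if_pos rfl, mul_one]
    · have h1 : (Pi.single a 1 : ι → MvPolynomial ι ℂ) z = 0 := by simp [Ne.symm h]
      rw [h1, mul_zero, if_neg h]
  have hz0 : ∀ x : ι → ℂ, eval (cut (Finset.univ.erase z) x) (X z : MvPolynomial ι ℂ) = 0 := by
    intro x
    rw [eval_X, AHL_cut_z]
  rw [mem_Resid]
  refine ⟨hg, ?_, ?_, ?_⟩
  · intro l i
    refine hR2 g hg k₁ hk1 hlow (s l) (hs l) ?_ i
    intro v
    have h := congrFun hf (Sum.inr (Sum.inr (Sum.inr (l, v))))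
    have h2 : AHL_pd v (s l) (f : MvPolynomial ι ℂ) = 0 := h
    rw [AHL_pd_apply, hfg] at h2
    exact h2
  · intro j
    have h := congrFun hf (Sum.inr (Sum.inr (Sum.inl j)))
    have h2 : AHL_pd z (cut (Finset.univ.erase z) (q j)) (f : MvPolynomial ι ℂ) = 0 := h
    rw [AHL_pd_apply, hfg, hd z, if_pos rfl, map_add, map_mul, hz0, zero_mul, zero_add] at h2
    exact h2
  · intro i v hv
    have h := congrFun hf (Sum.inr (Sum.inl (i, v)))
    rw [AHL_B_mid, if_neg hv, zero_mul, add_zero] at h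
    have h2 : eval (cut (Finset.univ.erase z) (p i))
      (pderiv v (pderiv z (f : MvPolynomial ι ℂ))) = 0 := h
    rw [hfg, hd z, if_pos rfl, map_add, Derivation.leibniz, smul_eq_mul, smul_eq_mul, pderiv_X,
      map_add, map_add, map_mul, map_mul, hz0, zero_mul, zero_add] at h2
    have h1 : (Pi.single v 1 : ι → MvPolynomial ι ℂ) z = 0 := by simp [Ne.symm hv]
    rw [h1, map_zero, mul_zero, zero_add] at h2
    exact h2

end main

theorem AHL (hT1 : T1_stmt) (hEUL : EUL_stmt) (hHOM : HOM_stmt) (hRST : RST_stmt)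
    (hCUT : CUT_stmt) : AHL_stmt := by
  intro ι κ _ _ _ _ c z d u δ r k hk hz q p s hs hT hR
  have hinj : Function.Injective (AHL_Th c z d q p) := by
    rw [← LinearMap.ker_eq_bot, LinearMap.ker_eq_bot']
    intro g hg
    have h1 : ∀ j, gradL (Finset.univ.erase z) (cut (Finset.univ.erase z) (q j))
        (g : MvPolynomial ι ℂ) = 0 := fun j => congrFun (congrArg Prod.fst hg) j
    have h2 : ∀ i, eval (cut (Finset.univ.erase z) (p i)) (g : MvPolynomial ι ℂ) = 0 := fun i => by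
      rw [← AHL_Th_snd c z d q p g i]
      exact congrFun (congrArg Prod.snd hg) i
    exact Subtype.ext (hT g g.2 h1 h2)
  obtain ⟨Thp, hThp⟩ := LinearMap.exists_leftInverse_of_injective (AHL_Th c z d q p)
    (LinearMap.ker_eq_bot.2 hinj)
  set Psi := Thp ∘ₗ LinearMap.inr ℂ (Fin u → ι → ℂ) (Fin δ → ℂ) with hPsi
  have hfin : Module.Finite ℂ ↥(Resid c z (low d (c z)) q p s) :=
    Submodule.finiteDimensional_of_le (S₂ := Sec c Finset.univ (low d (c z)))
      (inf_le_left.trans inf_le_left)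
  have hker0 : finrank ℂ (LinearMap.ker (AHL_B hHOM hCUT c z d q p s Psi 0)) ≤ k := by
    refine le_trans ?_ hR
    have h1 : (LinearMap.ker (AHL_B hHOM hCUT c z d q p s Psi 0)).map
        (Sec c Finset.univ d).subtype ≤
        (Resid c z (low d (c z)) q p s).map (LinearMap.mulLeft ℂ (X z : MvPolynomial ι ℂ)) := by
      rintro _ ⟨f, hf, rfl⟩
      obtain ⟨g, hg, hfg⟩ := AHL_claim2 hHOM hCUT hRST c z d hk q p s hs Psi f hf
      exact ⟨g, hg, hfg.symm⟩
    calc finrank ℂ (LinearMap.ker (AHL_B hHOM hCUT c z d q p s Psi 0)) =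
        finrank ℂ ((LinearMap.ker (AHL_B hHOM hCUT c z d q p s Psi 0)).map
          (Sec c Finset.univ d).subtype) :=
        (Submodule.finrank_map_subtype_eq _ _).symm
      _ ≤ finrank ℂ ((Resid c z (low d (c z)) q p s).map
          (LinearMap.mulLeft ℂ (X z : MvPolynomial ι ℂ))) := Submodule.finrank_mono h1
      _ ≤ finrank ℂ ↥(Resid c z (low d (c z)) q p s) := Submodule.finrank_map_le _ _
  have hfinite := hT1 (fun t => AHL_B hHOM hCUT c z d q p s Psi t)
    (fun f J => AHL_B_poly hHOM hCUT c z d q p s Psi f J) k 0 hker0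
  obtain ⟨t, ht⟩ := (hfinite.union (Set.finite_singleton (0 : ℂ))).infinite_compl.nonempty
  rw [Set.mem_compl_iff, Set.mem_union, not_or] at ht
  have ht1 : finrank ℂ (LinearMap.ker (AHL_B hHOM hCUT c z d q p s Psi t)) ≤ k := by
    by_contra h
    exact ht.1 h
  have ht0 : t ≠ 0 := fun h => ht.2 h
  refine ⟨AHL_cfg z q p s t, le_trans ?_ ht1⟩
  have h2 : Sng c d (AHL_cfg z q p s t) ≤
      (LinearMap.ker (AHL_B hHOM hCUT c z d q p s Psi t)).map (Sec c Finset.univ d).subtype := by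
    intro f hf
    rw [mem_Sng] at hf
    refine ⟨⟨f, hf.1⟩, ?_, rfl⟩
    exact AHL_claim1 hEUL hHOM hCUT c z d hk q p s Thp hThp t ht0 ⟨f, hf.1⟩ hf.2
  calc finrank ℂ ↥(Sng c d (AHL_cfg z q p s t)) ≤
      finrank ℂ ((LinearMap.ker (AHL_B hHOM hCUT c z d q p s Psi t)).map
        (Sec c Finset.univ d).subtype) := Submodule.finrank_mono h2
    _ ≤ finrank ℂ (LinearMap.ker (AHL_B hHOM hCUT c z d q p s Psi t)) :=
      Submodule.finrank_map_le _ _

end Pool.Agent.SV
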